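import Pool.Agent.H18.Ppc4

/-!
Quasi Maltsev and guarded symmetric polymorphisms characterise the structures that are
pp-interconstructible with a permutation group or with the single edge.
-/

namespace Pool.Agent.Results.MP_f310dc_lc.Full

open Function Pool.Agent.H18.Ppc

theorem pol_perm {G X I : Type} [Group G] [Finite G] [Finite X] [MulAction G X]
    {φ : (I → X) → X} (h : Pol (perm G X) φ) (g : G) (x : I → X) :
    φ (fun i => g • x i) = g • φ x := h g (fun i => ![x i, g • x i]) fun _ => rfl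

theorem mor_congr {K : Mn} {X : Type} {M : FM X} {U V : Obj K M} {α β} (h : Mor U V α)
    (e : ∀ c, α c = β c) : Mor U V β := funext e ▸ h

theorem nc_P1 {I : Type} (φ : (I → Fin 2) → Fin 2) (h : Pol P1 φ) : ∃ x y, φ x ≠ φ y :=
  ⟨_, _, LT.lt.ne (α := Fin 2) (h () (fun _ => (![0, 1] : Fin 2 → Fin 2)) fun _ => Fin.zero_lt_one)⟩

theorem fam {T : Type} [Finite T] {G X : T → Type} [∀ t, Group (G t)] [∀ t, Finite (G t)]
    [∀ t, Finite (X t)] [∀ t, MulAction (G t) (X t)] (d : ∀ t, X t) {I : Type}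
    {φ : (I → ∀ t, X t) → ∀ t, X t} (hφ : Pol (perm (∀ t, G t) (∀ t, X t)) φ) (t : T) (y : I → X t) :
    ∃ (ι : X t → ∀ t, X t) (p : X t), ∀ g : G t,
      φ (fun c => ι (g • y c)) = φ (fun c => ι (y c)) → g • p = p := by
  classical
  refine ⟨update d t, φ (fun c => update d t (y c)) t, fun g h => ?_⟩
  have := congrFun (pol_perm hφ (Pi.mulSingle t g) fun c => update d t (y c)) t
  have e : ∀ x, (Pi.mulSingle t g : ∀ t, G t) • update d t x = update d t (g • x) := fun x => by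
    funext t'
    by_cases k : t' = t
    · subst k; simp
    · simp [k]
  simp only [e, h] at this
  simpa using this.symm

theorem main (S : Str) (h1 : CondM S) (h2 : CondS S) (nc : ∀ u, End S u → ∃ x y, u x ≠ u y) :
    (∃ (G X : Type) (_ : Group G) (_ : Finite G) (_ : Finite X) (_ : MulAction G X),
      Constructs S (perm G X) ∧ Constructs (perm G X) S) ∨ (Constructs S P1 ∧ Constructs P1 S) := by
  classical
  obtain ⟨e, he, e2, hK, nm, hnm⟩ := setup S h1 h2
  obtain ⟨N, hN⟩ := back hK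
  let T := {t : Σ n : Fin (N + 1), Subgroup (Equiv.Perm (Fin n)) // 0 < t.1.1 ∧
    (∀ p, ∃ σ ∈ t.2, σ p ≠ p) ∧ ∃ a : Alg (KK S e he e2) (Fin t.1), ∀ σ ∈ t.2,
      ∀ ⦃I : Type⦄ (f : (KK S e he e2).C I) (x : I → Fin t.1), σ (a.act f x) = a.act f (σ ∘ x)}
  have key : ∀ {X : Type} {M : FM X} (U : Obj (KK S e he e2) M), Nat.card U.C ≤ N →
      (¬ ∃ x, ∀ σ : U.C ≃ U.C, Mor U U σ → σ x = x) → ∃ (t : T) (ε : U.C ≃ Fin t.1.1),
        ∀ σ ∈ t.1.2, ∀ x, U.φ (x ∘ ε.symm ∘ σ ∘ ε) = U.φ x := fun U hU hx => by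
    let ε : U.C ≃ Fin (Nat.card U.C) := Finite.equivFin _
    have := U.ne
    refine ⟨⟨⟨⟨Nat.card U.C, by omega⟩, ⟨⟨⟨{σ | Mor U U (ε.trans (σ.trans ε.symm))},
      fun {a b} ha hb => ?_⟩, ?_⟩, fun {a} ha => ?_⟩⟩, Nat.card_pos, fun p => ?_,
      ⟨fun f x => ε (U.a.act f (ε.symm ∘ x)), fun α f x => congrArg ε (U.a.minor α f _),
        fun x => by simp [U.a.one]⟩, fun σ hσ I f x => ?_⟩, ε, fun σ hσ x => (hσ.2 x).symm⟩
    · exact mor_congr (Mor.comp hb ha) fun c => by simp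
    · exact mor_congr (Mor.id U) fun c => by simp
    · exact Mor.symm ha
    · by_contra k
      refine hx ⟨ε.symm p, fun σ hσ => ε.injective ?_⟩
      by_contra k2
      refine k ⟨ε.symm.trans (σ.trans ε), ?_, by simpa using k2⟩
      exact mor_congr hσ fun c => by simp
    · have := congrArg ε (hσ.1 f (ε.symm ∘ x))
      simpa [comp_def] using this
  rcases isEmpty_or_nonempty T with hT | ⟨⟨t0⟩⟩
  · refine Or.inr ⟨constructs_of (fun f _ => if ∀ x y : Fin 2 → S.A, x 0 = y 0 → f x = f y then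
      (0 : Fin 2) else (1 : Fin 2)) fun s ψ hψ => ?_,
      hN P1 nc_P1 fun U hU => by_contra fun k => hT.elim (key U hU k).choose⟩
    have a : ∀ t : P1.R s, t.1 (0 : Fin 2) = (0 : Fin 2) ∧ t.1 (1 : Fin 2) = (1 : Fin 2) := fun t =>
      (show ∀ a b : Fin 2, a < b → a = 0 ∧ b = 1 by decide) _ _ t.2
    obtain ⟨x, y, hxy⟩ := nc _ hψ.diag
    show (ite _ _ _ : Fin 2) < ite _ _ _
    rw [if_pos, if_neg]
    · decide
    · refine fun k => hxy ?_
      simpa [comp_def, (a _).2] using k ![x, x] ![x, y] rfl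
    · intro x y k
      simp only [comp_def, (a _).1, k]
  choose a ha using fun t : T => t.2.2.2
  let d : ∀ t : T, Fin t.1.1 := fun t => ⟨0, t.2.1⟩
  refine Or.inl ⟨∀ t : T, t.1.2, ∀ t : T, Fin t.1.1, inferInstance, inferInstance, inferInstance,
    inferInstance, constructs_of (fun f hf t => (a t).act (nm f hf) fun x => x t) fun g ψ hψ => ?_,
    hN _ (fun φ hφ => ?_) fun U hU => by_contra fun k => ?_⟩
  · refine funext fun t => ?_
    show (a t).act (nm _ (hψ.minor _)) _ = (g t).1 ((a t).act (nm _ (hψ.minor _)) _)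
    rw [hnm _ hψ, hnm _ hψ, (a t).minor, (a t).minor, ha t _ (g t).2]
    exact congrArg _ (funext fun r => congrFun r.2 t)
  · by_contra k
    push Not at k
    obtain ⟨ι, p, hp⟩ := fam d hφ t0 fun _ => d t0
    obtain ⟨σ, h3, h4⟩ := t0.2.2.1 p
    exact h4 (hp ⟨σ, h3⟩ (k _ _))
  · obtain ⟨t, ε, hε⟩ := key U hU k
    obtain ⟨ι, p, hp⟩ := fam d U.p t ε
    obtain ⟨σ, h3, h4⟩ := t.2.2.1 p
    refine h4 (hp ⟨σ, h3⟩ (Eq.trans (congrArg _ (funext fun c => ?_)) (hε σ h3 _)))
    simp only [comp_apply, Equiv.apply_symm_apply]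
    rfl

theorem conds_perm (G X : Type) [Group G] [Finite G] [Finite X] [MulAction G X] :
    CondM (perm G X) ∧ CondS (perm G X) :=
  conds_of (S := perm G X) fun {I} (f : (I → X) → X) c h1 h2 (g : G) (t : I → Fin 2 → X)
      (ht : ∀ i, t i 1 = g • t i 0) => by
    show f _ = g • f _
    rw [h1, h1, h2 (fun i => t i 1) (fun i => t i 0) fun i j => by
      rw [ht i, ht j]; exact smul_left_cancel_iff (β := X) g]
    exact ht _

theorem conds_P1 : CondM P1 ∧ CondS P1 :=
  conds_of (S := P1) fun {I} (f : (I → Fin 2) → Fin 2) c h1 _ _ (t : I → Fin 2 → Fin 2)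
      (ht : ∀ i, t i 0 < t i 1) => by
    have k : ∀ a b : Fin 2, a < b → a = 0 ∧ b = 1 := by decide
    show f _ < f _
    rw [h1, h1, (k _ _ (ht _)).1, (k _ _ (ht _)).2]
    decide

theorem result (S : Str) : (CondM S ∧ CondS S) ↔
    ((∃ (G X : Type) (_ : Group G) (_ : Finite G) (_ : Finite X) (_ : MulAction G X),
      Constructs S (perm G X) ∧ Constructs (perm G X) S) ∨ (Constructs S P1 ∧ Constructs P1 S)) := by
  refine ⟨fun ⟨h1, h2⟩ => ?_, ?_⟩
  · by_cases nc : ∀ u, End S u → ∃ x y, u x ≠ u y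
    · exact main S h1 h2 nc
    push Not at nc
    obtain ⟨u, hu, hc⟩ := nc
    left
    by_cases hl : ∃ a, ∀ s, (fun _ => a) ∈ S.R s
    · obtain ⟨a, ha⟩ := hl
      exact ⟨Unit, Unit, inferInstance, inferInstance, inferInstance, inferInstance,
        constructs_of (fun _ _ => ()) fun _ _ _ => rfl, constructs_of (fun _ _ => a) fun s _ _ => ha s⟩
    have k : ∀ {I : Type} [IsEmpty I] (f : (I → S.A) → S.A), ¬ Pol S f := fun f hf =>
      hl ⟨f isEmptyElim, fun s => mem_of _ (hf s isEmptyElim isEmptyElim) fun _ =>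
        congrArg f (Subsingleton.elim _ _)⟩
    have ne : ∀ {I : Type}, ((I → Empty) → Empty) → Nonempty I := fun f =>
      by_contra fun h => (f fun i => absurd ⟨i⟩ h).elim
    refine ⟨Unit, Empty, inferInstance, inferInstance, inferInstance,
      { smul := fun _ x => x, one_smul := fun _ => rfl, mul_smul := fun _ _ _ => rfl },
      constructs_of (fun f hf => (@k _ (inferInstanceAs (IsEmpty Empty)) f hf).elim)
        fun s ψ hψ => (@k _ ⟨fun t => Empty.elim (t.1 (0 : Fin 2))⟩ ψ hψ).elim,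
      constructs_of (fun f _ => u (ne f).some) fun s ψ _ => ?_⟩
    obtain ⟨t⟩ := ne ψ
    exact mem_of _ (hu s _ t.2) fun _ => hc _ _
  · rintro (⟨G, X, _, _, _, _, -, h⟩ | ⟨-, h⟩)
    · exact h.conds (conds_perm G X).1 (conds_perm G X).2
    · exact h.conds conds_P1.1 conds_P1.2

end Pool.Agent.Results.MP_f310dc_lc.Full
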